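import Pool.Agent.E8helper63.KC.Low
import Pool.Agent.E8helper63.KC.Num

/-!
# The order of growth of `kc_r(r)` is `2 ^ r`

`2 ^ (r - 1) / 3 ≤ kc_r(r) ≤ 2 ^ (r - 1)` for all `r ≥ 2`. The upper bound is the starting file
`UpperHalf`; the lower bound known before was `Ω(2 ^ r / √r)`.

The lower bound. Put `n = r - 1`. For a family `C` of bijections of a set `J` of `n` coordinates onto
a set `I` of `n` symbols let `H` be the hypergraph with the edges `(0, w)`, `w` any word, and `(u, w)`,
`u ≠ 0`, where the word `w` is met (has the same symbol at some coordinate) by all the members of `C`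
but at most one. The edges `(0, e)`, `e ∈ C`, intersect, and any `|C| - 1` edges of `H` are all met by
one of them. `H` has no cover with `n + 1` vertices if

(G) for every set `X` of at most `n` forbidden pairs (coordinate, symbol) there is a word which
avoids `X` and which is met by all the members of `C` but at most one.

If some symbol is not forbidden at any coordinate then the constant word meets all bijections. Hence
it is enough to consider the sets `X` with exactly one forbidden coordinate `x i` for every symbol
`i`. Large families with (G) are constructed recursively: choose a coordinate `j` and two symbols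
`a`, `b`, a family `C_a` on `J \ j` with the symbols `I \ a`, a family `C_b` on `J \ j` with the symbols
`I \ b` and let `C` be the family of all `(a, e)`, `e ∈ C_a`, and `(b, e)`, `e ∈ C_b`. If `x b ≠ j`
put `b` at `j`, this meets the second half, and use (G) for `C_a`; the same if `x a ≠ j`. If
`x a = x b = j` then `a` and `b` may be used at all the other coordinates: if there is a set `A` of
coordinates such that the position of `a` is in `A` for all the members of `C_b`, while the position of
`b` is outside `A` for all the members of `C_a`, then the word with `a` in `A` and `b` outside `A` meets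
everything. So one needs families in which the position of one symbol is restricted to a given set
of `p` coordinates; the numbers `N(p, m)` of the words satisfy
`N(q + 1, m + 1) ≥ N(q, m) + N(m - q, m)`, `N(1, m + 1) ≥ N(m, m)`, and with explicit families for
`m ≤ 4` this gives `N(m, m) ≥ 2 ^ m / 3`.
-/

set_option autoImplicit false

namespace Pool.Agent.Results.MP_0386c9_co.OrderOfGrowthH63

open Filter Asymptotics Pool.Agent.H515R3.KC Pool.Agent.E8helper63.KCT

theorem bounds (r : ℕ) (hr : 2 ≤ r) : 2 ^ (r - 1) ≤ 3 * kc r r ∧ kc r r ≤ 2 ^ (r - 1) := by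
  refine ⟨?_, Nat.sInf_le (pow_mem_Good (by omega))⟩
  obtain ⟨n, rfl⟩ : ∃ n, r = n + 1 := ⟨r - 1, by omega⟩
  obtain ⟨v, h1, h2⟩ := third n (by omega)
  have h3 := lower (by omega) h1
  rw [Nat.add_sub_cancel]
  omega

/-- `2 ^ (r - 1) / 3 ≤ kc_r(r) ≤ 2 ^ (r - 1)` for all `r ≥ 2`; hence `kc_r(r)` has the order of
growth `2 ^ r`. -/
theorem result :
    (∀ r : ℕ, 2 ≤ r → (2 : ℝ) ^ (r - 1) / 3 ≤ kc r r ∧ (kc r r : ℝ) ≤ 2 ^ (r - 1)) ∧
    (fun r : ℕ => (kc r r : ℝ)) =Θ[atTop] fun r : ℕ => (2 : ℝ) ^ r := by
  have h : ∀ r : ℕ, 2 ≤ r → (2 : ℝ) ^ (r - 1) / 3 ≤ kc r r ∧ (kc r r : ℝ) ≤ 2 ^ (r - 1) := by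
    intro r hr
    obtain ⟨h1, h2⟩ := bounds r hr
    refine ⟨?_, by exact_mod_cast h2⟩
    have h3 : (2 : ℝ) ^ (r - 1) ≤ 3 * kc r r := by exact_mod_cast h1
    linarith
  refine ⟨h, IsBigO.of_bound 1 ?_, IsBigO.of_bound 6 ?_⟩
  · filter_upwards [eventually_ge_atTop 2] with r hr
    have h1 := (h r hr).2
    have h2 : (2 : ℝ) ^ (r - 1) ≤ 2 ^ r := pow_le_pow_right₀ (by norm_num) (by omega)
    rw [Real.norm_of_nonneg (by positivity), Real.norm_of_nonneg (by positivity), one_mul]
    exact h1.trans h2
  · filter_upwards [eventually_ge_atTop 2] with r hr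
    have h1 := (h r hr).1
    have h2 : (2 : ℝ) ^ r = 2 * 2 ^ (r - 1) := by
      rw [← pow_succ']
      congr 1
      omega
    rw [Real.norm_of_nonneg (by positivity), Real.norm_of_nonneg (by positivity), h2]
    linarith

end Pool.Agent.Results.MP_0386c9_co.OrderOfGrowthH63
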